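import Pool.Agent.N484.KP.Stm
set_option autoImplicit false

/-! A scaled box is covered by boundedly many translates of the thin cylinder. -/

namespace Pool.Agent.N484.KP

open MeasureTheory Set
open scoped ENNReal

theorem cover_holds : COVER := by
  classical
  intro d R
  have hK : IsCompact (Metric.closedBall (0 : Rn (d + 1)) (Real.sqrt d * |R| / 2)) :=
    isCompact_closedBall _ _
  obtain ⟨t, ht, hfin, hcov⟩ := hK.finite_cover_balls (e := 1 / 2) (by norm_num)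
  refine ⟨hfin.toFinset, ?_⟩
  intro N δ hN hδ hδ2 hR e f a y ho hy
  set z : Rn (d + 1) := (N ^ 2)⁻¹ • (y - a) with hz
  have hN0 : 0 < N := by linarith
  have hN2 : 0 < N ^ 2 := by positivity
  have hez : |(inner ℝ e z : ℝ)| ≤ 1 / 2 := by
    rw [hz, inner_smul_right, abs_mul, abs_of_pos (inv_pos.2 hN2)]
    calc (N ^ 2)⁻¹ * |(inner ℝ e (y - a) : ℝ)| ≤ (N ^ 2)⁻¹ * (N ^ 2 / 2) := by
          gcongr; exact hy.1
      _ = 1 / 2 := by field_simp
  have hfz : ∀ j, |(inner ℝ (f j) z : ℝ)| ≤ |R| * δ / 2 := by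
    intro j
    rw [hz, inner_smul_right, abs_mul, abs_of_pos (inv_pos.2 hN2)]
    have h1 : R * δ ≤ |R| * δ := by gcongr; exact le_abs_self R
    calc (N ^ 2)⁻¹ * |(inner ℝ (f j) (y - a) : ℝ)| ≤ (N ^ 2)⁻¹ * (N / 2) := by
          gcongr; exact hy.2 j
      _ = (1 / N) / 2 := by field_simp
      _ ≤ |R| * δ / 2 := by linarith
  have hx : ∀ (v : Rn (d + 1)) (s : ℝ),
      (N ^ 2)⁻¹ • y - ((N ^ 2)⁻¹ • a + δ • v + s • e) = z - δ • v - s • e := by
    intro v s
    rw [hz, smul_sub]; abel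
  clear_value z
  have hne : ‖e‖ = 1 := by have := ho.1 0; simpa using this
  have hee : (inner ℝ e e : ℝ) = 1 := by rw [real_inner_self_eq_norm_sq, hne]; norm_num
  have hfe : ∀ j, (inner ℝ (f j) e : ℝ) = 0 := by
    intro j
    have := ho.2 (i := j.succ) (j := 0) (Fin.succ_ne_zero j)
    simpa using this
  set p : Rn (d + 1) := z - (inner ℝ z e : ℝ) • e with hp
  have hpe : (inner ℝ p e : ℝ) = 0 := by
    rw [hp, inner_sub_left, inner_smul_left, hee]; simp
  have hpf : ∀ j, (inner ℝ (f j) p : ℝ) = inner ℝ (f j) z := by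
    intro j
    rw [hp, inner_sub_right, inner_smul_right, hfe]; simp
  have hcard : Fintype.card (Fin (d + 1)) = Module.finrank ℝ (Rn (d + 1)) := by simp
  let b0 := basisOfOrthonormalOfCardEqFinrank ho hcard
  have hb0 : (b0 : Fin (d + 1) → Rn (d + 1)) = Fin.cons e f :=
    coe_basisOfOrthonormalOfCardEqFinrank ho hcard
  let b : OrthonormalBasis (Fin (d + 1)) ℝ (Rn (d + 1)) :=
    b0.toOrthonormalBasis (by rw [hb0]; exact ho)
  have hb : ∀ i, b i = (Fin.cons e f : Fin (d + 1) → Rn (d + 1)) i := by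
    intro i
    have : (b : Fin (d + 1) → Rn (d + 1)) = Fin.cons e f := by
      rw [Module.Basis.coe_toOrthonormalBasis, hb0]
    rw [this]
  have hnp : ‖p‖ ≤ Real.sqrt d * |R| / 2 * δ := by
    have h1 : ‖p‖ ^ 2 = ∑ j, (inner ℝ (f j) z : ℝ) ^ 2 := by
      rw [← b.sum_sq_norm_inner_right p, Fin.sum_univ_succ]
      have : ‖(inner ℝ (b 0) p : ℝ)‖ ^ 2 = 0 := by
        rw [hb 0, Fin.cons_zero, real_inner_comm, hpe]; simp
      rw [this, zero_add]
      refine Finset.sum_congr rfl fun j _ => ?_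
      rw [hb, Fin.cons_succ, hpf, Real.norm_eq_abs, sq_abs]
    have h2 : ∑ j, (inner ℝ (f j) z : ℝ) ^ 2 ≤ ∑ _j : Fin d, (|R| * δ / 2) ^ 2 := by
      refine Finset.sum_le_sum fun j _ => ?_
      exact sq_le_sq' (by have := (abs_le.1 (hfz j)).1; linarith) ((abs_le.1 (hfz j)).2)
    rw [Finset.sum_const, Finset.card_univ, Fintype.card_fin, nsmul_eq_mul] at h2
    have h3 : ‖p‖ ^ 2 ≤ (Real.sqrt d * |R| / 2 * δ) ^ 2 := by
      rw [h1]
      refine h2.trans (le_of_eq ?_)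
      have : Real.sqrt d ^ 2 = d := Real.sq_sqrt (Nat.cast_nonneg d)
      calc (d : ℝ) * (|R| * δ / 2) ^ 2 = Real.sqrt d ^ 2 * (|R| * δ / 2) ^ 2 := by rw [this]
        _ = _ := by ring
    exact (abs_le_of_sq_le_sq' h3 (by positivity)).2
  have hmem : δ⁻¹ • p ∈ Metric.closedBall (0 : Rn (d + 1)) (Real.sqrt d * |R| / 2) := by
    rw [mem_closedBall_zero_iff, norm_smul, Real.norm_eq_abs, abs_of_pos (inv_pos.2 hδ)]
    calc δ⁻¹ * ‖p‖ ≤ δ⁻¹ * (Real.sqrt d * |R| / 2 * δ) := by gcongr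
      _ = _ := by field_simp
  obtain ⟨v, hv, hpv⟩ := Set.mem_iUnion₂.1 (hcov hmem)
  rw [Metric.mem_ball, dist_eq_norm] at hpv
  have hpv' : ‖p - δ • v‖ ≤ δ / 2 := by
    have : p - δ • v = δ • (δ⁻¹ • p - v) := by
      rw [smul_sub, smul_smul, mul_inv_cancel₀ hδ.ne', one_smul]
    rw [this, norm_smul, Real.norm_eq_abs, abs_of_pos hδ]
    nlinarith
  have hve : |δ * (inner ℝ v e : ℝ)| ≤ δ / 2 := by
    have h1 : (inner ℝ (p - δ • v) e : ℝ) = - (δ * inner ℝ v e) := by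
      rw [inner_sub_left, hpe, inner_smul_left]; simp
    have h2 := abs_real_inner_le_norm (p - δ • v) e
    rw [h1, abs_neg, hne, mul_one] at h2
    exact h2.trans hpv'
  set c : ℝ := inner ℝ z e - δ * inner ℝ v e with hc
  have hez' : |(inner ℝ z e : ℝ)| ≤ 1 / 2 := by rw [real_inner_comm]; exact hez
  have hcb : |c| ≤ 3 / 4 := by
    have := abs_sub (inner ℝ z e : ℝ) (δ * inner ℝ v e)
    linarith
  obtain ⟨s, hs, hsc⟩ : ∃ s ∈ ({-(1 / 4), 1 / 4} : Finset ℝ), |c - s| ≤ 1 / 2 := by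
    rcases le_total 0 c with h | h
    · refine ⟨1 / 4, by simp, abs_le.2 ⟨by linarith, by linarith [(abs_le.1 hcb).2]⟩⟩
    · refine ⟨-(1 / 4), by simp, abs_le.2 ⟨by linarith [(abs_le.1 hcb).1], by linarith⟩⟩
  refine ⟨v, hfin.mem_toFinset.2 hv, s, hs, ?_⟩
  rw [hx]
  have hxe : (inner ℝ (z - δ • v - s • e) e : ℝ) = c - s := by
    rw [inner_sub_left, inner_sub_left, inner_smul_left, inner_smul_left, hee]; simp [hc]
  refine ⟨by rw [hxe]; exact hsc, ?_⟩
  rw [hxe]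
  have h4 : z - δ • v - s • e - (c - s) • e = (p - δ • v) - (inner ℝ (p - δ • v) e : ℝ) • e := by
    have h1 : (inner ℝ (p - δ • v) e : ℝ) = - (δ * inner ℝ v e) := by
      rw [inner_sub_left, hpe, inner_smul_left]; simp
    rw [h1, hp, hc]
    module
  rw [h4]
  exact (KC.perp_le hne _).trans (hpv'.trans (by linarith))

end Pool.Agent.N484.KP
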